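import Pool.Agent.U728.RGraph.Embed

set_option autoImplicit false

/-!
# MP_397c7d_co, Q1: no nontrivial lattice identity holds in all `R(G)`, `G` a finite graph

Proof. By the starting library (`RegTree.main`) no nontrivial identity holds in all lattices
`Reg(e)` of regular closed (for transitive closure) subsets of a finite strict ordering `e`. Each of
these lattices is embedded in some `R(G)`. Let `E` be the ordered set, `G` the cover graph of the
lattice of the upper sets of `E`, and, for `x < y`, let `S x y` be the set of the upper sets which
contain `y` but not `x`. It is connected, and `S x z` is the disjoint union of `S x y` and `S y z` for
`x < y < z`. There is a linear functional on the functions on the upper sets which vanishes at the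
indicator function of a connected set `T` if and only if `T` is one of the `S x y`: it is chosen
generic among those that vanish at all functions `A ↦ ∑_{x ∈ A} c x` with `∑ c = 0`, and the
connected sets whose indicator has this form are the `S x y`. The embedding sends `a ⊆ e` to the
family of the `S x y`, `(x, y) ∈ a`, and of all connected sets on which the functional is positive;
it commutes with the closure and, since the complement has the same form for the opposite
functional, with the interior.
-/

namespace Pool.Agent.Results.MP_397c7d_co.NoIdentityGraphs

open Pool.Agent.R645.RegTree (LTerm)
open Pool.Agent.U728.RGraph (R R.lattice)

universe u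

/-- **Q1.** If a lattice identity `s = t` holds in the lattice `R(G)` for every finite graph `G`, then
it holds in every lattice. -/
theorem result (s t : LTerm)
    (h : ∀ (V : Type) [Finite V] (G : SimpleGraph V) (F : ℕ → R G),
      @LTerm.eval (R G) (R.lattice G) F s = @LTerm.eval (R G) (R.lattice G) F t) :
    ∀ (K : Type u) [Lattice K] (v : ℕ → K), s.eval v = t.eval v :=
  fun K _ v => Pool.Agent.U728.RGraph.main s t h K v

end Pool.Agent.Results.MP_397c7d_co.NoIdentityGraphs
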